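import Pool.Agent.Lib.MP_688fd0_co.SQ6.Iface

/-!
Board B1*, row TOWER.
-/

set_option autoImplicit false

namespace Pool.Agent.Lib.MP_688fd0_co.SQ6.TowerRow

open Pool.Agent.Lib.MP_688fd0_co.SQ6

theorem tower : TowerS := by
  intro G _ m _ lev ψ hψ
  have hcast : ∀ x : G, ((lev x).val : ZMod m) = lev x := fun x => ZMod.natCast_zmod_val (lev x)
  have hlt : ∀ x : G, (lev x).val < m := fun x => ZMod.val_lt (lev x)
  have hstep : ∀ x : G, lev (ψ (lev x).val x) = lev x + 1 := by
    intro x
    have h1 := hψ (lev x).val (hlt x) x (hcast x).symm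
    rw [h1, hcast]
  have hinj : Function.Injective (fun x : G => ψ (lev x).val x) := by
    intro x y hxy
    have hxy' : ψ (lev x).val x = ψ (lev y).val y := hxy
    have h1 : lev x + 1 = lev y + 1 := by rw [← hstep x, ← hstep y, hxy']
    have h2 : lev x = lev y := add_right_cancel h1
    rw [h2] at hxy'
    exact (ψ (lev y).val).injective hxy'
  set Φ : Equiv.Perm G := Equiv.ofBijective _ (Finite.injective_iff_bijective.mp hinj) with hΦ
  have hΦx : ∀ x, Φ x = ψ (lev x).val x := fun x => rfl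
  have hΦl : ∀ x, lev (Φ x) = lev x + 1 := fun x => hstep x
  have hΦi : ∀ i, i < m → ∀ x, lev x = (i : ZMod m) → Φ x = ψ i x := by
    intro i hi x hx
    rw [hΦx, hx, ZMod.val_natCast_of_lt hi]
  refine ⟨Φ, hΦi, ?_⟩
  -- levels of iterates
  have hlevpow : ∀ (n : ℕ) (x : G), lev ((Φ ^ n) x) = lev x + n := by
    intro n x
    induction n with
    | zero => simp
    | succ n ih =>
      rw [pow_succ', Equiv.Perm.mul_apply, hΦl, ih]
      push_cast
      ring
  have hcomp : ∀ (n : ℕ), n ≤ m → ∀ x, lev x = 0 → comp ψ n x = (Φ ^ n) x := by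
    intro n
    induction n with
    | zero => intro _ x _; rfl
    | succ n ih =>
      intro hn x hx
      have h1 : comp ψ (n + 1) x = ψ n (comp ψ n x) := rfl
      rw [h1, ih (by omega) x hx, pow_succ', Equiv.Perm.mul_apply]
      have h2 : lev ((Φ ^ n) x) = (n : ZMod m) := by rw [hlevpow, hx, zero_add]
      exact (hΦi n (by omega) _ h2).symm
  have hpow : ∀ (k : ℕ) (x : G), lev x = 0 → ((comp ψ m) ^ k) x = (Φ ^ (m * k)) x := by
    intro k x hx
    induction k with
    | zero => simp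
    | succ k ih =>
      rw [pow_succ', Equiv.Perm.mul_apply, ih]
      have h1 : lev ((Φ ^ (m * k)) x) = 0 := by
        rw [hlevpow, hx]; push_cast; simp
      rw [hcomp m le_rfl _ h1, ← Equiv.Perm.mul_apply, ← pow_add]
      congr 2
      ring
  have hsame : ∀ x w : G, lev x = 0 → (comp ψ m).SameCycle x w → Φ.SameCycle x w := by
    intro x w hx h
    obtain ⟨k, hk⟩ := h.exists_nat_pow_eq
    rw [hpow k x hx] at hk
    exact ⟨((m * k : ℕ) : ℤ), by rw [zpow_natCast]; exact hk⟩
  intro x y hx hy hxy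
  refine ⟨x, y, fun z => ?_⟩
  have hz : lev ((Φ ^ (m - (lev z).val)) z) = 0 := by
    rw [hlevpow]
    nth_rewrite 1 [← hcast z]
    rw [← Nat.cast_add, Nat.add_sub_cancel' (hlt z).le, ZMod.natCast_self]
  have hzz : Φ.SameCycle ((Φ ^ (m - (lev z).val)) z) z := by
    refine Equiv.Perm.SameCycle.symm ⟨((m - (lev z).val : ℕ) : ℤ), ?_⟩
    rw [zpow_natCast]
  rcases hxy _ hz with h | h
  · exact Or.inl ((hsame _ _ hx h).trans hzz)
  · exact Or.inr ((hsame _ _ hy h).trans hzz)

end Pool.Agent.Lib.MP_688fd0_co.SQ6.TowerRow
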